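import Pool.Agent.helper78.HFN.Spec

/-!
# Project HFN (MP_3221a1_ag), row EXB: bound for the excesses of a list of curves with multiplicities at most two
-/

set_option autoImplicit false

open Polynomial Module

namespace Pool.Agent.HFN

noncomputable section

theorem EXB_res (κ : ℂ × ℂ → ℕ) (hκ : ∀ z, κ z ≤ 2) (C : AA) : ∀ z, res κ C z ≤ 2 := fun z =>
  (Nat.sub_le _ _).trans (hκ z)

theorem EXB_lam (Z : Finset (ℂ × ℂ)) (κ : ℂ × ℂ → ℕ) (C : AA) (m : ℕ) (h : ∀ z, ev z C = 0 → κ z ≤ m) :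
    lam Z κ C ≤ m * nn Z C := by
  classical
  unfold lam nn
  have h1 : ∑ z ∈ Z.filter (fun z => ev z C = 0), κ z ≤ ∑ _z ∈ Z.filter (fun z => ev z C = 0), m :=
    Finset.sum_le_sum fun z hz => h z (Finset.mem_filter.1 hz).2
  rw [Finset.sum_const, smul_eq_mul, mul_comm] at h1
  refine le_trans (le_of_eq ?_) (h1.trans (le_of_eq ?_))
  · exact Finset.sum_congr (by ext z; simp) fun _ _ => rfl
  · congr 2

theorem EXB_lam2 (Z : Finset (ℂ × ℂ)) (κ : ℂ × ℂ → ℕ) (hκ : ∀ z, κ z ≤ 2) (C : AA) : lam Z κ C ≤ 2 * nn Z C :=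
  EXB_lam Z κ C 2 fun z _ => hκ z

theorem EXB_lam1 (Z : Finset (ℂ × ℂ)) (κ : ℂ × ℂ → ℕ) (hκ : ∀ z, κ z ≤ 2) (C : AA) : lam Z (res κ C) C ≤ nn Z C := by
  have h := EXB_lam Z (res κ C) C 1 fun z hz => by
    have h1 : 1 ≤ od C z := by
      unfold od
      split_ifs <;> omega
    have h2 := hκ z
    unfold res
    omega
  omega

theorem EXB : EXB_stmt := by
  intro Z i j L
  induction L with
  | nil =>
    intro _ κ _
    simp [fl, exs]
  | cons p L ih =>
    intro hp κ hκ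
    have hp2 : p.2 ≤ 2 := hp p List.mem_cons_self
    have ih' := ih fun q hq => hp q (List.mem_cons_of_mem _ hq)
    have e1 : fl (p :: L) = List.replicate p.2 p.1 ++ fl L := by
      unfold fl
      rw [List.flatMap_cons]
    rw [e1, List.map_cons, List.sum_cons]
    have h2 := EXB_lam2 Z κ hκ p.1
    have h1 := EXB_lam1 Z κ hκ p.1
    have hcase : p.2 = 0 ∨ p.2 = 1 ∨ p.2 = 2 := by omega
    rcases hcase with e | e | e
    · rw [e]
      have h3 := ih' κ hκ
      have e2 : List.replicate 0 p.1 ++ fl L = fl L := rfl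
      rw [e2]
      omega
    · rw [e]
      have h3 := ih' (res κ p.1) (EXB_res κ hκ p.1)
      have e2 : List.replicate 1 p.1 ++ fl L = p.1 :: fl L := rfl
      have e3 : exs Z i j (p.1 :: fl L) κ = (lam Z κ p.1 - ip i j p.1) + exs Z i j (fl L) (res κ p.1) := rfl
      have e4 : ex (nn Z p.1) (ip i j p.1) = (2 * nn Z p.1 - ip i j p.1) + (nn Z p.1 - ip i j p.1) := rfl
      rw [e2, e3, e4]
      omega
    · rw [e]
      have h3 := ih' (res (res κ p.1) p.1) (EXB_res _ (EXB_res κ hκ p.1) p.1)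
      have e2 : List.replicate 2 p.1 ++ fl L = p.1 :: p.1 :: fl L := rfl
      have e3 : exs Z i j (p.1 :: p.1 :: fl L) κ = (lam Z κ p.1 - ip i j p.1) +
          ((lam Z (res κ p.1) p.1 - ip i j p.1) + exs Z i j (fl L) (res (res κ p.1) p.1)) := rfl
      have e4 : ex (nn Z p.1) (ip i j p.1) = (2 * nn Z p.1 - ip i j p.1) + (nn Z p.1 - ip i j p.1) := rfl
      rw [e2, e3, e4]
      omega

end

end Pool.Agent.HFN
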